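import Mathlib

/-!
# The set-cofinality of the Weihrauch degrees is `2 ^ 𝔠`

Every problem bounds only countably many total single-valued functions on Baire space: if
`F ≤_W g` via `(Φ, Ψ)`, then `F p = Ψ (p, q)` for every `q ∈ g (Φ p)`, so that `F` is determined
by `g` and the pair `(Φ, Ψ)`.  Since there are `2 ^ 𝔠` such functions, a cofinal family of
Weihrauch degrees has at least (hence exactly) `2 ^ 𝔠` elements.
-/

namespace Pool.Agent.Results.MP_62990a_lc.SetCofinality

open Cardinal

/-- Baire space `ℕ ^ ℕ`. -/
abbrev Baire : Type := ℕ → ℕ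

/-- The initial segment `p(0), ..., p(k-1)` of `p`, as a word. -/
def init (p : Baire) (k : ℕ) : List ℕ := (List.range k).map p

/-- The sequence of words `w 0, w 1, ...` approximates the point `q`: every word is an initial
segment of `q`, and the lengths of the words are unbounded. -/
def Approximates (w : ℕ → List ℕ) (q : Baire) : Prop :=
  (∀ k, w k = init q (w k).length) ∧ ∀ n, ∃ k, n ≤ (w k).length

/-- `Φ :⊆ ℕ^ℕ → ℕ^ℕ` is a computable partial functional: some computable word function, monotone
for the order of initial segments, approximates `Φ p` along the initial segments of `p`, for every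
`p` in the domain of `Φ`. -/
def IsComputable₁ (Φ : Baire →. Baire) : Prop :=
  ∃ w : List ℕ → List ℕ, Computable w ∧ (∀ u v, u <+: v → w u <+: w v) ∧
    ∀ p r, r ∈ Φ p → Approximates (fun k => w (init p k)) r

/-- `Ψ :⊆ ℕ^ℕ × ℕ^ℕ → ℕ^ℕ` is a computable partial functional of two arguments. -/
def IsComputable₂ (Ψ : Baire × Baire →. Baire) : Prop :=
  ∃ w : List ℕ × List ℕ → List ℕ, Computable w ∧
    (∀ u u' v v', u <+: u' → v <+: v' → w (u, v) <+: w (u', v')) ∧
    ∀ p q r, r ∈ Ψ (p, q) → Approximates (fun k => w (init p k, init q k)) r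

/-- A problem: a partial multi-valued function on Baire space, given by its set of admissible
outputs `f.out p`; this set is nonempty exactly when `p` is in the domain. -/
structure Problem : Type where
  out : Baire → Set Baire

/-- The domain of a problem. -/
def Problem.dom (f : Problem) : Set Baire := {p | (f.out p).Nonempty}

/-- Weihrauch reducibility. -/
def WLe (f g : Problem) : Prop :=
  ∃ (Φ : Baire →. Baire) (Ψ : Baire × Baire →. Baire), IsComputable₁ Φ ∧ IsComputable₂ Ψ ∧
    ∀ p ∈ f.dom, ∃ r ∈ Φ p, r ∈ g.dom ∧ ∀ q ∈ g.out r, ∃ s ∈ Ψ (p, q), s ∈ f.out p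

theorem init_length (p : Baire) (k : ℕ) : (init p k).length = k := by simp [init]

theorem init_take (p : Baire) {j k : ℕ} (h : j ≤ k) : (init p k).take j = init p j := by
  simp [init, ← List.map_take, List.take_range, h]

theorem init_mono (p : Baire) {j k : ℕ} (h : j ≤ k) : init p j <+: init p k := by
  rw [← init_take p h]
  exact List.take_prefix _ _

theorem init_getElem? (p : Baire) {j k : ℕ} (h : j < k) : (init p k)[j]? = some (p j) := by
  simp [init, h]

theorem eq_init_of_isPrefix {u : List ℕ} {p : Baire} {k : ℕ} (h : u <+: init p k) :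
    u = init p u.length := by
  have h1 : u.length ≤ k := by simpa [init_length] using h.length_le
  rw [← init_take p h1]
  exact List.prefix_iff_eq_take.1 h

theorem Approximates.unique {w : ℕ → List ℕ} {q q' : Baire} (h : Approximates w q)
    (h' : Approximates w q') : q = q' := by
  funext n
  obtain ⟨k, hk⟩ := h.2 (n + 1)
  have h1 := init_getElem? q (show n < (w k).length by omega)
  have h2 := init_getElem? q' (show n < (w k).length by omega)
  rw [← h.1 k] at h1
  rw [← h'.1 k] at h2
  rw [h1] at h2
  exact Option.some_injective _ h2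

theorem WLe.refl (f : Problem) : WLe f f := by
  refine ⟨fun p => Part.some p, fun pq => Part.some pq.2, ?_, ?_, ?_⟩
  · refine ⟨fun u => u, Computable.id, fun u v h => h, ?_⟩
    intro p r hr
    obtain rfl : r = p := by simpa using hr
    exact ⟨fun k => by simp [init_length], fun n => ⟨n, by simp [init_length]⟩⟩
  · refine ⟨fun uv => uv.2, Computable.snd, fun u u' v v' _ h => h, ?_⟩
    intro p q r hr
    obtain rfl : r = q := by simpa using hr
    exact ⟨fun k => by simp [init_length], fun n => ⟨n, by simp [init_length]⟩⟩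
  · intro p hp
    exact ⟨p, by simp, hp, fun q hq => ⟨q, by simp, hq⟩⟩

/-- Two-argument monotone approximation, with different lengths for the two arguments. -/
theorem approx_two {w : List ℕ × List ℕ → List ℕ}
    (hm : ∀ u u' v v', u <+: u' → v <+: v' → w (u, v) <+: w (u', v')) {p q s : Baire}
    (h : Approximates (fun k => w (init p k, init q k)) s) {a b : ℕ → ℕ}
    (ha : ∀ n, ∃ k, n ≤ a k) (hb : ∀ n, ∃ k, n ≤ b k)
    (ha' : Monotone a) (hb' : Monotone b) :
    Approximates (fun k => w (init p (a k), init q (b k))) s := by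
  constructor
  · intro k
    have h1 : w (init p (a k), init q (b k)) <+:
        w (init p (max (a k) (b k)), init q (max (a k) (b k))) :=
      hm _ _ _ _ (init_mono p (le_max_left _ _)) (init_mono q (le_max_right _ _))
    have h2 := h.1 (max (a k) (b k))
    simp only at h2
    rw [h2] at h1
    exact eq_init_of_isPrefix h1
  · intro n
    obtain ⟨m, hm'⟩ := h.2 n
    obtain ⟨k1, hk1⟩ := ha m
    obtain ⟨k2, hk2⟩ := hb m
    refine ⟨max k1 k2, le_trans hm' ?_⟩
    refine (hm _ _ _ _ (init_mono p ?_) (init_mono q ?_)).length_le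
    · exact hk1.trans (ha' (le_max_left _ _))
    · exact hk2.trans (hb' (le_max_right _ _))

theorem WLe.trans {f g h : Problem} (h1 : WLe f g) (h2 : WLe g h) : WLe f h := by
  obtain ⟨Φ1, Ψ1, ⟨w1, cw1, mw1, aw1⟩, ⟨v1, cv1, mv1, av1⟩, H1⟩ := h1
  obtain ⟨Φ2, Ψ2, ⟨w2, cw2, mw2, aw2⟩, ⟨v2, cv2, mv2, av2⟩, H2⟩ := h2
  refine ⟨fun p => (Φ1 p).bind Φ2,
    fun pq => (Φ1 pq.1).bind fun r => (Ψ2 (r, pq.2)).bind fun s => Ψ1 (pq.1, s), ?_, ?_, ?_⟩
  · refine ⟨fun u => w2 (w1 u), cw2.comp cw1, fun u v huv => mw2 _ _ (mw1 _ _ huv), ?_⟩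
    intro p r' hr'
    obtain ⟨r, hr, hr'⟩ := Part.mem_bind_iff.1 hr'
    have A1 := aw1 p r hr
    have A2 := aw2 r r' hr'
    constructor
    · intro k
      have e1 := A1.1 k
      simp only at e1 ⊢
      rw [e1]
      have e2 := A2.1 (w1 (init p k)).length
      exact e2
    · intro n
      obtain ⟨k', hk'⟩ := A2.2 n
      obtain ⟨k, hk⟩ := A1.2 k'
      refine ⟨k, hk'.trans ?_⟩
      have e1 := A1.1 k
      simp only at e1 ⊢
      rw [e1]
      exact (mw2 _ _ (init_mono r hk)).length_le
  · refine ⟨fun uv => v1 (uv.1, v2 (w1 uv.1, uv.2)), ?_, ?_, ?_⟩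
    · exact cv1.comp (Computable.pair Computable.fst
        (cv2.comp (Computable.pair (cw1.comp Computable.fst) Computable.snd)))
    · intro u u' v v' hu hv
      exact mv1 _ _ _ _ hu (mv2 _ _ _ _ (mw1 _ _ hu) hv)
    · intro p q t ht
      obtain ⟨r, hr, ht⟩ := Part.mem_bind_iff.1 ht
      obtain ⟨s, hs, ht⟩ := Part.mem_bind_iff.1 ht
      have A1 := aw1 p r hr
      have A2 := av2 r q s hs
      have A3 := av1 p s t ht
      -- approximation of `s`
      have A2' : Approximates (fun k => v2 (init r (w1 (init p k)).length, init q k)) s := by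
        refine approx_two mv2 A2 A1.2 (fun n => ⟨n, le_rfl⟩) ?_ monotone_id
        intro i j hij
        exact (mw1 _ _ (init_mono p hij)).length_le
      have e : ∀ k, v2 (w1 (init p k), init q k)
          = v2 (init r (w1 (init p k)).length, init q k) := by
        intro k
        have := A1.1 k
        simp only at this
        rw [← this]
      have A2'' : Approximates (fun k => v2 (w1 (init p k), init q k)) s := by
        simpa only [e] using A2'
      have A3' : Approximates
          (fun k => v1 (init p k, init s (v2 (w1 (init p k), init q k)).length)) t := by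
        refine approx_two mv1 A3 (fun n => ⟨n, le_rfl⟩) A2''.2 monotone_id ?_
        intro i j hij
        exact (mv2 _ _ _ _ (mw1 _ _ (init_mono p hij)) (init_mono q hij)).length_le
      have e' : ∀ k, v1 (init p k, v2 (w1 (init p k), init q k))
          = v1 (init p k, init s (v2 (w1 (init p k), init q k)).length) := by
        intro k
        have := A2''.1 k
        simp only at this
        rw [← this]
      simpa only [e'] using A3'
  · intro p hp
    obtain ⟨r, hr, hrd, H1'⟩ := H1 p hp
    obtain ⟨r', hr', hrd', H2'⟩ := H2 r hrd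
    refine ⟨r', Part.mem_bind_iff.2 ⟨r, hr, hr'⟩, hrd', ?_⟩
    intro q hq
    obtain ⟨s, hs, hsg⟩ := H2' q hq
    obtain ⟨t, ht, htf⟩ := H1' s hsg
    exact ⟨t, Part.mem_bind_iff.2 ⟨r, hr, Part.mem_bind_iff.2 ⟨s, hs, ht⟩⟩, htf⟩

instance : Preorder Problem where
  le := WLe
  le_refl := WLe.refl
  le_trans _ _ _ := WLe.trans

/-- The partial order of Weihrauch degrees: problems modulo Weihrauch equivalence. -/
abbrev WeihrauchDegree : Type := Antisymmetrization Problem (· ≤ ·)

/-- The computable functions between two countable coded types form a countable set. -/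
theorem countable_computable {α β : Type} [Primcodable α] [Primcodable β] :
    {w : α → β | Computable w}.Countable := by
  classical
  have key : ∀ w : {w : α → β | Computable w}, ∃ c : Nat.Partrec.Code,
      c.eval = fun n => Part.bind (Encodable.decode (α := α) n : Option α)
        fun a => (Part.some (w.1 a)).map Encodable.encode := by
    intro w
    exact Nat.Partrec.Code.exists_code.1 w.2
  choose c hc using key
  have hinj : Function.Injective c := by
    intro w w' h
    have h1 := hc w
    have h2 := hc w'
    rw [h, h2] at h1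
    apply Subtype.ext
    funext a
    have := congrFun h1 (Encodable.encode a)
    simp only [Encodable.encodek, Part.coe_some, Part.bind_some, Part.map_some,
      Part.some_inj] at this
    exact (Encodable.encode_injective this).symm
  have : Countable {w : α → β | Computable w} := hinj.countable
  exact Set.countable_coe_iff.1 this

/-- The problem given by a total single-valued function. -/
def ofFun (F : Baire → Baire) : Problem := ⟨fun p => {F p}⟩

theorem countable_below (g : Problem) : {F : Baire → Baire | WLe (ofFun F) g}.Countable := by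
  classical
  have hc : ({w : List ℕ → List ℕ | Computable w} ×ˢ
      {w : List ℕ × List ℕ → List ℕ | Computable w}).Countable :=
    countable_computable.prod countable_computable
  have key : ∀ F : {F : Baire → Baire | WLe (ofFun F) g},
      ∃ wv : (List ℕ → List ℕ) × (List ℕ × List ℕ → List ℕ),
        (Computable wv.1 ∧ Computable wv.2) ∧ ∀ p, ∃ r,
          Approximates (fun k => wv.1 (init p k)) r ∧ (g.out r).Nonempty ∧
          ∀ q ∈ g.out r, Approximates (fun k => wv.2 (init p k, init q k)) (F.1 p) := by
    rintro ⟨F, Φ, Ψ, ⟨w, cw, -, aw⟩, ⟨v, cv, -, av⟩, H⟩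
    refine ⟨(w, v), ⟨cw, cv⟩, fun p => ?_⟩
    obtain ⟨r, hr, hrd, H'⟩ := H p ⟨F p, rfl⟩
    refine ⟨r, aw p r hr, hrd, fun q hq => ?_⟩
    obtain ⟨s, hs, hsF⟩ := H' q hq
    obtain rfl : s = F p := hsF
    exact av p q _ hs
  choose wv hwv H using key
  have hinj : Function.Injective
      (fun F => (⟨wv F, hwv F⟩ : {w : List ℕ → List ℕ | Computable w} ×ˢ
      {w : List ℕ × List ℕ → List ℕ | Computable w})) := by
    intro F F' h
    have h' : wv F = wv F' := congrArg Subtype.val h
    apply Subtype.ext
    funext p
    obtain ⟨r, hr, hne, Hr⟩ := H F p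
    obtain ⟨r', hr', hne', Hr'⟩ := H F' p
    rw [← h'] at hr' Hr'
    obtain rfl : r = r' := hr.unique hr'
    obtain ⟨q, hq⟩ := hne
    exact (Hr q hq).unique (Hr' q hq)
  have : Countable ({w : List ℕ → List ℕ | Computable w} ×ˢ
      {w : List ℕ × List ℕ → List ℕ | Computable w} : Set _) := Set.countable_coe_iff.2 hc
  exact Set.countable_coe_iff.1 hinj.countable

theorem mk_Baire : #Baire = 𝔠 := by simp [Baire]

theorem continuum_power_self : (𝔠 : Cardinal.{0}) ^ (𝔠 : Cardinal.{0}) = 2 ^ (𝔠 : Cardinal.{0}) := by
  rw [← two_power_aleph0, ← power_mul, two_power_aleph0, aleph0_mul_continuum]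

theorem mk_fun : #(Baire → Baire) = 2 ^ (𝔠 : Cardinal.{0}) := by
  rw [← continuum_power_self, ← mk_Baire, Cardinal.power_def]

theorem mk_Problem_le : #Problem ≤ 2 ^ (𝔠 : Cardinal.{0}) := by
  have h : #Problem ≤ #(Baire → Set Baire) :=
    mk_le_of_injective (f := Problem.out) (by rintro ⟨f⟩ ⟨g⟩ h; simpa using h)
  refine h.trans ?_
  rw [← Cardinal.power_def, mk_set, mk_Baire, ← power_mul, continuum_mul_self]

/-- **Main theorem.** The set-cofinality of the Weihrauch degrees is `2 ^ 𝔠`. -/
theorem result : Order.cof WeihrauchDegree = 2 ^ Cardinal.continuum.{0} := by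
  apply le_antisymm
  · exact (Order.cof_le_cardinalMk _).trans ((mk_le_of_surjective
      (f := toAntisymmetrization (α := Problem) (· ≤ ·)) (by
        intro x; exact Quotient.exists_rep x)).trans mk_Problem_le)
  · rw [Order.le_cof_iff]
    intro S hS
    by_contra hlt
    push Not at hlt
    -- cover the total single-valued functions by `#S` countable sets
    have hcov : (Set.univ : Set (Baire → Baire)) ⊆
        ⋃ s ∈ S, {F | toAntisymmetrization (· ≤ ·) (ofFun F) ≤ s} := by
      intro F _
      obtain ⟨s, hs, hle⟩ := hS (toAntisymmetrization (· ≤ ·) (ofFun F))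
      simp only [Set.mem_iUnion]
      exact ⟨s, hs, hle⟩
    have hcount : ∀ s : WeihrauchDegree,
        #({F : Baire → Baire | toAntisymmetrization (· ≤ ·) (ofFun F) ≤ s}) ≤ ℵ₀ := by
      intro s
      induction s using Quotient.inductionOn with
      | h g => exact (le_aleph0_iff_set_countable.2 (countable_below g))
    have h1 : #(Baire → Baire) ≤ #S * ℵ₀ := by
      rw [← mk_univ]
      refine (mk_le_mk_of_subset hcov).trans ?_
      refine (mk_biUnion_le _ _).trans ?_
      exact mul_le_mul' le_rfl (ciSup_le' fun s => hcount s)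
    rw [mk_fun] at h1
    have h2 : ℵ₀ < 2 ^ (𝔠 : Cardinal.{0}) :=
      aleph0_lt_continuum.trans (cantor _)
    have h3 : #S * ℵ₀ < 2 ^ (𝔠 : Cardinal.{0}) :=
      mul_lt_of_lt h2.le hlt h2
    exact absurd h1 (not_le.2 h3)

end Pool.Agent.Results.MP_62990a_lc.SetCofinality
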